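import Mathlib

set_option maxRecDepth 100000

/-!
# A new non-MC value among the lattice point counts `g(k)`

We show that `g(35) = 3853` is non-MC: the supremum of the radii of the circles enclosing exactly
`g(35)` lattice points equals `√4930 / 2` and is not attained.
-/

namespace Pool.Agent.Results.MP_b0ed8d_nt.NonMC35

/-- The number of lattice points (points with integer coordinates) lying in the open disc with
centre `c` and radius `r` of the Euclidean plane, i.e. enclosed by the circle with centre `c` and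
radius `r`. -/
noncomputable def enclosed (c : EuclideanSpace ℝ (Fin 2)) (r : ℝ) : ℕ :=
  Set.ncard {p : ℤ × ℤ | (!₂[(p.1 : ℝ), (p.2 : ℝ)] : EuclideanSpace ℝ (Fin 2)) ∈ Metric.ball c r}

/-- The set of the radii of the `n`-enclosing circles (arbitrary centre, positive radius, exactly
`n` lattice points enclosed). -/
def enclosingRadii (n : ℕ) : Set ℝ :=
  {r : ℝ | 0 < r ∧ ∃ c : EuclideanSpace ℝ (Fin 2), enclosed c r = n}

/-- `n` is MC: the supremum `R_n` of the radii of `n`-enclosing circles is attained. -/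
def IsMC (n : ℕ) : Prop :=
  ∃ R : ℝ, IsLUB (enclosingRadii n) R ∧ R ∈ enclosingRadii n

/-- `n` is non-MC: the supremum `R_n` of the radii of `n`-enclosing circles (exists and) is not
attained. -/
def IsNonMC (n : ℕ) : Prop :=
  ∃ R : ℝ, IsLUB (enclosingRadii n) R ∧ R ∉ enclosingRadii n

/-- `g k` is the number of integer points `(a,b)` with `a^2 + b^2 ≤ k^2`. -/
noncomputable def g (k : ℕ) : ℕ :=
  Set.ncard {p : ℤ × ℤ | p.1 ^ 2 + p.2 ^ 2 ≤ (k : ℤ) ^ 2}

/-- Sanity check: a non-MC number is not MC. -/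
theorem IsNonMC.not_isMC {n : ℕ} (h : IsNonMC n) : ¬ IsMC n := by
  obtain ⟨R, hR, hR'⟩ := h
  rintro ⟨S, hS, hS'⟩
  exact hR' (hR.unique hS ▸ hS')

/-! ### Coordinates -/

/-- The set of lattice points at squared distance `< T` from `(x,y)`. -/
def D (x y T : ℝ) : Set (ℤ × ℤ) :=
  {p : ℤ × ℤ | ((p.1 : ℝ) - x) ^ 2 + ((p.2 : ℝ) - y) ^ 2 < T}

theorem enclosed_eq (c : EuclideanSpace ℝ (Fin 2)) (r : ℝ) (hr : 0 < r) :
    enclosed c r = (D (c 0) (c 1) (r ^ 2)).ncard := by
  unfold enclosed D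
  congr 1
  ext p
  simp only [Set.mem_ofPred_eq, Metric.mem_ball, EuclideanSpace.dist_eq, Fin.sum_univ_two]
  rw [Real.sqrt_lt' hr]
  simp [Real.dist_eq, sq_abs]

theorem D_finite (x y T : ℝ) : (D x y T).Finite := by
  obtain ⟨B, hB⟩ := exists_nat_gt (|x| + |y| + |T| + 1)
  apply Set.Finite.subset (s := Set.Icc (-(B : ℤ)) B ×ˢ Set.Icc (-(B : ℤ)) B)
    ((Set.finite_Icc _ _).prod (Set.finite_Icc _ _))
  rintro ⟨a, b⟩ h
  simp only [D, Set.mem_ofPred_eq] at h
  have hx1 := neg_abs_le x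
  have hx2 := le_abs_self x
  have hy1 := neg_abs_le y
  have hy2 := le_abs_self y
  have hT := le_abs_self T
  have hT0 := abs_nonneg T
  have hx0 := abs_nonneg x
  have hy0 := abs_nonneg y
  have key : ∀ (a x : ℝ), (a - x) ^ 2 < T → |x| + |T| + 1 < B → -(B : ℝ) ≤ a ∧ a ≤ B := by
    intro a x h1 h2
    have hx1 := neg_abs_le x
    have hx2 := le_abs_self x
    have h3 : |a - x| < |T| + 1 := by
      by_contra hcon
      push Not at hcon
      have : (|T| + 1) ^ 2 ≤ |a - x| ^ 2 := by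
        apply pow_le_pow_left₀ (by positivity) hcon
      rw [sq_abs] at this
      nlinarith
    rw [abs_lt] at h3
    constructor <;> linarith [h3.1, h3.2]
  have ha := key a x (by nlinarith [sq_nonneg ((b : ℝ) - y)]) (by linarith)
  have hb := key b y (by nlinarith [sq_nonneg ((a : ℝ) - x)]) (by linarith)
  simp only [Set.mem_prod, Set.mem_Icc]
  refine ⟨⟨?_, ?_⟩, ⟨?_, ?_⟩⟩
  · exact_mod_cast ha.1
  · exact_mod_cast ha.2
  · exact_mod_cast hb.1
  · exact_mod_cast hb.2

theorem D_mono (x y : ℝ) {T T' : ℝ} (h : T ≤ T') : (D x y T).ncard ≤ (D x y T').ncard := by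
  apply Set.ncard_le_ncard _ (D_finite _ _ _)
  intro p hp
  simp only [D, Set.mem_ofPred_eq] at hp ⊢
  linarith

/-! ### Counting by computation -/

/-- Sum of `f 0, ..., f (n-1)`. -/
def rsum (f : ℕ → ℕ) : ℕ → ℕ
  | 0 => 0
  | n + 1 => rsum f n + f n

theorem rsum_eq (f : ℕ → ℕ) (n : ℕ) : rsum f n = ∑ i ∈ Finset.range n, f i := by
  induction n with
  | zero => simp [rsum]
  | succ n ih => rw [rsum, ih, Finset.sum_range_succ]

/-- Number of `(i,j)` with `i, j < 73` and `f i j = true`. -/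
def cnt (f : ℕ → ℕ → Bool) : ℕ :=
  rsum (fun i => rsum (fun j => bif f i j then 1 else 0) 73) 73

/-- The finite set counted by `cnt`, moved to `[-36,36]^2`. -/
def shiftSet (f : ℕ → ℕ → Bool) : Finset (ℤ × ℤ) :=
  ((Finset.range 73 ×ˢ Finset.range 73).filter (fun p => f p.1 p.2 = true)).map
    ⟨fun p => ((p.1 : ℤ) - 36, (p.2 : ℤ) - 36), by
      rintro ⟨a, b⟩ ⟨c, d⟩ h
      simp only [Prod.mk.injEq] at h
      ext <;> simp <;> omega⟩

theorem card_shiftSet (f : ℕ → ℕ → Bool) : (shiftSet f).card = cnt f := by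
  unfold shiftSet cnt
  rw [Finset.card_map, Finset.card_filter, Finset.sum_product, rsum_eq]
  apply Finset.sum_congr rfl
  intro i _
  rw [rsum_eq]
  apply Finset.sum_congr rfl
  intro j _
  cases f i j <;> simp

theorem mem_shiftSet (f : ℕ → ℕ → Bool) (p : ℤ × ℤ) :
    p ∈ shiftSet f ↔ ∃ i j : ℕ, i < 73 ∧ j < 73 ∧ f i j = true ∧ p.1 = (i : ℤ) - 36 ∧
      p.2 = (j : ℤ) - 36 := by
  unfold shiftSet
  simp only [Finset.mem_map, Finset.mem_filter, Finset.mem_product, Finset.mem_range,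
    Prod.exists]
  constructor
  · rintro ⟨i, j, ⟨⟨hi, hj⟩, hf⟩, rfl⟩
    exact ⟨i, j, hi, hj, hf, rfl, rfl⟩
  · rintro ⟨i, j, hi, hj, hf, h1, h2⟩
    exact ⟨i, j, ⟨⟨hi, hj⟩, hf⟩, Prod.ext h1.symm h2.symm⟩

/-- Squared difference of two natural numbers. -/
def sqd (u v : ℕ) : ℕ := ((u - v) + (v - u)) ^ 2

theorem sqd_cast (u v : ℕ) : ((sqd u v : ℕ) : ℝ) = ((u : ℝ) - v) ^ 2 := by
  unfold sqd
  rcases le_total u v with h | h
  · rw [Nat.sub_eq_zero_of_le h, zero_add]
    push_cast [Nat.cast_sub h]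
    ring
  · rw [Nat.sub_eq_zero_of_le h, add_zero]
    push_cast [Nat.cast_sub h]
    ring

theorem sqd_cast_int (u v : ℕ) : ((sqd u v : ℕ) : ℤ) = ((u : ℤ) - v) ^ 2 := by
  unfold sqd
  rcases le_total u v with h | h
  · rw [Nat.sub_eq_zero_of_le h, zero_add]
    push_cast [Nat.cast_sub h]
    ring
  · rw [Nat.sub_eq_zero_of_le h, add_zero]
    push_cast [Nat.cast_sub h]
    ring

/-- Test whether the lattice point `(i - 36, j - 36)` is at squared distance `< 4930/4` from every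
point of the box `[x0, x1] × [y0, y1]`, all coordinates of the box being measured in units of
`1/128` and shifted by `36`. -/
def boxTest (x0 x1 y0 y1 : ℕ) (i j : ℕ) : Bool :=
  Nat.blt (max (sqd (128 * i) x0) (sqd (128 * i) x1) + max (sqd (128 * j) y0) (sqd (128 * j) y1))
    20193280

theorem sq_le_max {a x x0 x1 : ℝ} (h0 : x0 ≤ x) (h1 : x ≤ x1) :
    (a - x) ^ 2 ≤ max ((a - x0) ^ 2) ((a - x1) ^ 2) := by
  rcases le_total x a with h | h
  · apply le_max_of_le_left
    nlinarith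
  · apply le_max_of_le_right
    nlinarith

/-- Soundness of the box test. -/
theorem boxTest_sound {x0 x1 y0 y1 : ℕ} {X Y : ℝ} (hx0 : (x0 : ℝ) ≤ 128 * (X + 36))
    (hx1 : 128 * (X + 36) ≤ x1) (hy0 : (y0 : ℝ) ≤ 128 * (Y + 36)) (hy1 : 128 * (Y + 36) ≤ y1) :
    (shiftSet (boxTest x0 x1 y0 y1) : Set (ℤ × ℤ)) ⊆ D X Y (4930 / 4) := by
  intro p hp
  rw [Finset.mem_coe, mem_shiftSet] at hp
  obtain ⟨i, j, -, -, hf, h1, h2⟩ := hp
  simp only [D, Set.mem_ofPred_eq]
  have h1' : (p.1 : ℝ) = (i : ℝ) - 36 := by exact_mod_cast h1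
  have h2' : (p.2 : ℝ) = (j : ℝ) - 36 := by exact_mod_cast h2
  unfold boxTest at hf
  rw [Nat.blt_eq] at hf
  have hf2 : (((max (sqd (128 * i) x0) (sqd (128 * i) x1) +
      max (sqd (128 * j) y0) (sqd (128 * j) y1) : ℕ)) : ℝ) < (20193280 : ℕ) := by
    exact_mod_cast hf
  push_cast at hf2
  rw [sqd_cast, sqd_cast, sqd_cast, sqd_cast] at hf2
  push_cast at hf2
  have e1 := sq_le_max (a := 128 * (i : ℝ)) hx0 hx1
  have e2 := sq_le_max (a := 128 * (j : ℝ)) hy0 hy1
  rw [h1', h2']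
  nlinarith

/-- The recursive covering check: the box `[x0, x0+s] × [y0, y0+s]` (units `1/128`, shifted by
`36`) is contained in the corner box, or all its points have at least `3854` lattice points at
squared distance `< 4930/4`, or this holds for its four quarters. -/
def chk : ℕ → ℕ → ℕ → ℕ → Bool
  | 0, _, _, _ => false
  | k + 1, x0, y0, s =>
    (Nat.ble 4664 x0 && Nat.ble 4664 y0) ||
    Nat.ble 3854 (cnt (boxTest x0 (x0 + s) y0 (y0 + s))) ||
    (Nat.beq (2 * (s / 2)) s && (chk k x0 y0 (s / 2) && (chk k (x0 + s / 2) y0 (s / 2) &&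
      (chk k x0 (y0 + s / 2) (s / 2) && chk k (x0 + s / 2) (y0 + s / 2) (s / 2)))))

theorem chk_sound (k : ℕ) : ∀ (x0 y0 s : ℕ), chk k x0 y0 s = true → ∀ X Y : ℝ,
    (x0 : ℝ) ≤ 128 * (X + 36) → 128 * (X + 36) ≤ x0 + s →
    (y0 : ℝ) ≤ 128 * (Y + 36) → 128 * (Y + 36) ≤ y0 + s →
    (7 / 16 ≤ X ∧ 7 / 16 ≤ Y) ∨ 3854 ≤ (D X Y (4930 / 4)).ncard := by
  induction k with
  | zero => intro x0 y0 s h; simp [chk] at h
  | succ k ih =>
    intro x0 y0 s h X Y hx0 hx1 hy0 hy1
    rw [chk, Bool.or_eq_true, Bool.or_eq_true] at h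
    rcases h with (h | h) | h
    · left
      rw [Bool.and_eq_true, Nat.ble_eq, Nat.ble_eq] at h
      have h1 : (4664 : ℝ) ≤ x0 := by exact_mod_cast h.1
      have h2 : (4664 : ℝ) ≤ y0 := by exact_mod_cast h.2
      constructor <;> linarith
    · right
      rw [Nat.ble_eq] at h
      rw [← card_shiftSet] at h
      refine h.trans ?_
      rw [← Set.ncard_coe_finset]
      apply Set.ncard_le_ncard _ (D_finite _ _ _)
      apply boxTest_sound hx0 _ hy0 _
      · push_cast; exact hx1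
      · push_cast; exact hy1
    · rw [Bool.and_eq_true, Bool.and_eq_true, Bool.and_eq_true, Bool.and_eq_true, Nat.beq_eq] at h
      obtain ⟨hs, h1, h2, h3, h4⟩ := h
      have hs' : (s : ℝ) = ((s / 2 : ℕ) : ℝ) + ((s / 2 : ℕ) : ℝ) := by
        have : s = s / 2 + s / 2 := by omega
        exact_mod_cast this
      rcases le_total (128 * (X + 36)) (x0 + (s / 2 : ℕ)) with hX | hX <;>
      rcases le_total (128 * (Y + 36)) (y0 + (s / 2 : ℕ)) with hY | hY
      · exact ih _ _ _ h1 X Y hx0 hX hy0 hY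
      · exact ih _ _ _ h3 X Y hx0 hX (by push_cast; exact hY) (by push_cast; linarith)
      · exact ih _ _ _ h2 X Y (by push_cast; exact hX) (by push_cast; linarith) hy0 hY
      · exact ih _ _ _ h4 X Y (by push_cast; exact hX) (by push_cast; linarith)
          (by push_cast; exact hY) (by push_cast; linarith)

theorem chk_true : chk 6 4608 4608 64 = true := by
  decide +kernel

/-! ### The exact counts at the origin and at the centre `(1/2, 1/2)` -/

/-- Test for `E < 4930`, where `E / 4` is the squared distance to `(1/2,1/2)`. -/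
def centerTest (i j : ℕ) : Bool := Nat.blt (sqd (2 * i) 73 + sqd (2 * j) 73) 4930

theorem D_center : D (1 / 2) (1 / 2) (4930 / 4) = (shiftSet centerTest : Set (ℤ × ℤ)) := by
  ext p
  rw [Finset.mem_coe, mem_shiftSet]
  simp only [D, Set.mem_ofPred_eq]
  have hE : ((p.1 : ℝ) - 1 / 2) ^ 2 + ((p.2 : ℝ) - 1 / 2) ^ 2 < 4930 / 4 ↔
      (2 * p.1 - 1) ^ 2 + (2 * p.2 - 1) ^ 2 < 4930 := by
    rw [show ((p.1 : ℝ) - 1 / 2) ^ 2 + ((p.2 : ℝ) - 1 / 2) ^ 2 =
      (((2 * p.1 - 1) ^ 2 + (2 * p.2 - 1) ^ 2 : ℤ) : ℝ) / 4 by push_cast; ring]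
    rw [div_lt_div_iff_of_pos_right (by norm_num)]
    exact_mod_cast Iff.rfl
  rw [hE]
  constructor
  · intro h
    have h1 : -36 ≤ p.1 := by nlinarith [sq_nonneg (2 * p.2 - 1)]
    have h2 : p.1 ≤ 36 := by nlinarith [sq_nonneg (2 * p.2 - 1)]
    have h3 : -36 ≤ p.2 := by nlinarith [sq_nonneg (2 * p.1 - 1)]
    have h4 : p.2 ≤ 36 := by nlinarith [sq_nonneg (2 * p.1 - 1)]
    refine ⟨(p.1 + 36).toNat, (p.2 + 36).toNat, by omega, by omega, ?_, by omega, by omega⟩
    unfold centerTest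
    rw [Nat.blt_eq]
    zify
    rw [sqd_cast_int, sqd_cast_int]
    push_cast
    rw [Int.toNat_of_nonneg (by omega), Int.toNat_of_nonneg (by omega)]
    convert h using 2 <;> ring
  · rintro ⟨i, j, -, -, hf, h1, h2⟩
    unfold centerTest at hf
    rw [Nat.blt_eq] at hf
    zify at hf
    rw [sqd_cast_int, sqd_cast_int] at hf
    push_cast at hf
    rw [h1, h2]
    convert hf using 2 <;> ring

theorem cnt_center : cnt centerTest = 3852 := by
  decide +kernel

theorem ncard_center : (D (1 / 2) (1 / 2) (4930 / 4)).ncard = 3852 := by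
  rw [D_center, Set.ncard_coe_finset, card_shiftSet, cnt_center]

/-- Test for `a^2 + b^2 ≤ 35^2`. -/
def originTest (i j : ℕ) : Bool := Nat.ble (sqd i 36 + sqd j 36) 1225

theorem cnt_origin : cnt originTest = 3853 := by
  decide +kernel

theorem g_35 : g 35 = 3853 := by
  unfold g
  rw [← cnt_origin, ← card_shiftSet, ← Set.ncard_coe_finset]
  congr 1
  ext p
  rw [Finset.mem_coe, mem_shiftSet]
  simp only [Set.mem_ofPred_eq]
  push_cast
  constructor
  · intro h
    have h1 : -36 ≤ p.1 := by nlinarith [sq_nonneg p.2]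
    have h2 : p.1 ≤ 36 := by nlinarith [sq_nonneg p.2]
    have h3 : -36 ≤ p.2 := by nlinarith [sq_nonneg p.1]
    have h4 : p.2 ≤ 36 := by nlinarith [sq_nonneg p.1]
    refine ⟨(p.1 + 36).toNat, (p.2 + 36).toNat, by omega, by omega, ?_, by omega, by omega⟩
    unfold originTest
    rw [Nat.ble_eq]
    zify
    rw [sqd_cast_int, sqd_cast_int]
    push_cast
    rw [Int.toNat_of_nonneg (by omega), Int.toNat_of_nonneg (by omega)]
    convert h using 2 <;> ring
  · rintro ⟨i, j, -, -, hf, h1, h2⟩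
    unfold originTest at hf
    rw [Nat.ble_eq] at hf
    zify at hf
    rw [sqd_cast_int, sqd_cast_int] at hf
    push_cast at hf
    rw [h1, h2]
    convert hf using 2

/-! ### Lower bounds for all centres -/

theorem cnt_corner : Nat.ble 3852 (cnt (boxTest 4664 4672 4664 4672)) = true := by
  decide +kernel

theorem corner {X Y : ℝ} (hX : 7 / 16 ≤ X) (hX' : X ≤ 1 / 2) (hY : 7 / 16 ≤ Y) (hY' : Y ≤ 1 / 2)
    (hne : ¬ (X = 1 / 2 ∧ Y = 1 / 2)) : 3854 ≤ (D X Y (4930 / 4)).ncard := by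
  have hsub : (shiftSet (boxTest 4664 4672 4664 4672) : Set (ℤ × ℤ)) ⊆ D X Y (4930 / 4) := by
    apply boxTest_sound <;> push_cast <;> linarith
  have hcard := cnt_corner
  rw [Nat.ble_eq, ← card_shiftSet] at hcard
  have n1 : ((-31, -15) : ℤ × ℤ) ∉ shiftSet (boxTest 4664 4672 4664 4672) := by
    rw [mem_shiftSet]
    rintro ⟨i, j, -, -, hf, h1, h2⟩
    have hi : i = 5 := by simp only at h1; omega
    have hj : j = 21 := by simp only at h2; omega
    subst hi hj
    revert hf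
    decide
  have n2 : ((-15, -31) : ℤ × ℤ) ∉ shiftSet (boxTest 4664 4672 4664 4672) := by
    rw [mem_shiftSet]
    rintro ⟨i, j, -, -, hf, h1, h2⟩
    have hi : i = 21 := by simp only at h1; omega
    have hj : j = 5 := by simp only at h2; omega
    subst hi hj
    revert hf
    decide
  have hpos : 0 < (1 / 2 - X) + (1 / 2 - Y) := by
    by_contra hcon
    push Not at hcon
    exact hne ⟨by linarith, by linarith⟩
  have m1 : ((-31, -15) : ℤ × ℤ) ∈ D X Y (4930 / 4) := by
    simp only [D, Set.mem_ofPred_eq]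
    push_cast
    nlinarith
  have m2 : ((-15, -31) : ℤ × ℤ) ∈ D X Y (4930 / 4) := by
    simp only [D, Set.mem_ofPred_eq]
    push_cast
    nlinarith
  have hle : (insert ((-31, -15) : ℤ × ℤ) (insert ((-15, -31) : ℤ × ℤ)
      (shiftSet (boxTest 4664 4672 4664 4672)))).card ≤ (D X Y (4930 / 4)).ncard := by
    rw [← Set.ncard_coe_finset]
    apply Set.ncard_le_ncard _ (D_finite _ _ _)
    rw [Finset.coe_insert, Finset.coe_insert]
    exact Set.insert_subset m1 (Set.insert_subset m2 hsub)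
  rw [Finset.card_insert_of_notMem, Finset.card_insert_of_notMem n2] at hle
  · omega
  · rw [Finset.mem_insert]
    push Not
    exact ⟨by decide, n1⟩

theorem lower {X Y : ℝ} (hX : 0 ≤ X) (hX' : X ≤ 1 / 2) (hY : 0 ≤ Y) (hY' : Y ≤ 1 / 2)
    (hne : ¬ (X = 1 / 2 ∧ Y = 1 / 2)) : 3854 ≤ (D X Y (4930 / 4)).ncard := by
  rcases chk_sound 6 4608 4608 64 chk_true X Y (by push_cast; linarith) (by push_cast; linarith)
    (by push_cast; linarith) (by push_cast; linarith) with h | h
  · exact corner h.1 hX' h.2 hY' hne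
  · exact h

/-- At the centre `(1/2,1/2)` a radius larger than `√4930 / 2` gives at least `3854` points. -/
theorem center_big {T : ℝ} (hT : 4930 / 4 < T) : 3854 ≤ (D (1 / 2) (1 / 2) T).ncard := by
  have m1 : ((-31, -15) : ℤ × ℤ) ∈ D (1 / 2) (1 / 2) T := by
    simp only [D, Set.mem_ofPred_eq]
    push_cast
    linarith
  have m2 : ((-15, -31) : ℤ × ℤ) ∈ D (1 / 2) (1 / 2) T := by
    simp only [D, Set.mem_ofPred_eq]
    push_cast
    linarith
  have n1 : ((-31, -15) : ℤ × ℤ) ∉ D (1 / 2) (1 / 2) (4930 / 4) := by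
    simp only [D, Set.mem_ofPred_eq]
    push_cast
    norm_num
  have n2 : ((-15, -31) : ℤ × ℤ) ∉ D (1 / 2) (1 / 2) (4930 / 4) := by
    simp only [D, Set.mem_ofPred_eq]
    push_cast
    norm_num
  have hle : (insert ((-31, -15) : ℤ × ℤ) (insert ((-15, -31) : ℤ × ℤ)
      (D (1 / 2) (1 / 2) (4930 / 4)))).ncard ≤ (D (1 / 2) (1 / 2) T).ncard := by
    apply Set.ncard_le_ncard _ (D_finite _ _ _)
    refine Set.insert_subset m1 (Set.insert_subset m2 ?_)
    intro p hp
    simp only [D, Set.mem_ofPred_eq] at hp ⊢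
    linarith
  rw [Set.ncard_insert_of_notMem _ ((D_finite _ _ _).insert _),
    Set.ncard_insert_of_notMem n2 (D_finite _ _ _), ncard_center] at hle
  · exact hle
  · rw [Set.mem_insert_iff]
    push Not
    exact ⟨by decide, n1⟩

/-! ### Reduction of the centre modulo the symmetries of the lattice -/

theorem reduce_coord (x : ℝ) : ∃ (m s : ℤ) (x' : ℝ), (s = 1 ∨ s = -1) ∧ 0 ≤ x' ∧ x' ≤ 1 / 2 ∧
    x = m + s * x' := by
  have h := abs_sub_round x
  rcases le_total 0 (x - round x) with h0 | h0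
  · refine ⟨round x, 1, x - round x, Or.inl rfl, h0, ?_, ?_⟩
    · rwa [abs_of_nonneg h0] at h
    · push_cast; ring
  · refine ⟨round x, -1, -(x - round x), Or.inr rfl, by linarith, ?_, ?_⟩
    · rwa [abs_of_nonpos h0] at h
    · push_cast; ring

theorem reduce (x y : ℝ) : ∃ (x' y' : ℝ), 0 ≤ x' ∧ x' ≤ 1 / 2 ∧ 0 ≤ y' ∧ y' ≤ 1 / 2 ∧
    ∀ T : ℝ, (D x y T).ncard = (D x' y' T).ncard := by
  obtain ⟨m, s, x', hs, hx0, hx1, hx⟩ := reduce_coord x
  obtain ⟨k, t, y', ht, hy0, hy1, hy⟩ := reduce_coord y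
  refine ⟨x', y', hx0, hx1, hy0, hy1, ?_⟩
  intro T
  have hs2 : s * s = 1 := by rcases hs with h | h <;> subst h <;> norm_num
  have ht2 : t * t = 1 := by rcases ht with h | h <;> subst h <;> norm_num
  have hs2' : (s : ℝ) * s = 1 := by exact_mod_cast hs2
  have ht2' : (t : ℝ) * t = 1 := by exact_mod_cast ht2
  have hinj : Function.Injective (fun p : ℤ × ℤ => ((m + s * p.1, k + t * p.2) : ℤ × ℤ)) := by
    rintro ⟨a, b⟩ ⟨c, d⟩ h
    simp only [Prod.mk.injEq] at h
    obtain ⟨h1, h2⟩ := h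
    have e1 : s * a = s * c := by linarith
    have e2 : t * b = t * d := by linarith
    have e1' : a = c := by
      have := congrArg (fun z => s * z) e1
      simp only [← mul_assoc, hs2, one_mul] at this
      exact this
    have e2' : b = d := by
      have := congrArg (fun z => t * z) e2
      simp only [← mul_assoc, ht2, one_mul] at this
      exact this
    rw [e1', e2']
  rw [← Set.ncard_image_of_injective (D x' y' T) hinj]
  congr 1
  ext ⟨a, b⟩
  simp only [Set.mem_image, D, Set.mem_ofPred_eq, Prod.exists, Prod.mk.injEq]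
  constructor
  · intro h
    refine ⟨s * (a - m), t * (b - k), ?_, ?_, ?_⟩
    · push_cast
      have e1 : ((s : ℝ) * (a - m) - x') ^ 2 = (a - x) ^ 2 := by
        rw [hx]
        have : ((s : ℝ) * (a - m) - x') ^ 2 = (s * s) * (a - m) ^ 2 - 2 * s * (a - m) * x' + x' ^ 2 := by
          ring
        rw [this]
        have : ((a : ℝ) - (m + s * x')) ^ 2 = (a - m) ^ 2 - 2 * s * (a - m) * x' + (s * s) * x' ^ 2 := by
          ring
        rw [this, hs2']
        ring
      have e2 : ((t : ℝ) * (b - k) - y') ^ 2 = (b - y) ^ 2 := by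
        rw [hy]
        have : ((t : ℝ) * (b - k) - y') ^ 2 = (t * t) * (b - k) ^ 2 - 2 * t * (b - k) * y' + y' ^ 2 := by
          ring
        rw [this]
        have : ((b : ℝ) - (k + t * y')) ^ 2 = (b - k) ^ 2 - 2 * t * (b - k) * y' + (t * t) * y' ^ 2 := by
          ring
        rw [this, ht2']
        ring
      rw [e1, e2]
      exact h
    · rw [← mul_assoc, hs2]; ring
    · rw [← mul_assoc, ht2]; ring
  · rintro ⟨c, d, h, h1, h2⟩
    have e1 : ((a : ℝ) - x) ^ 2 = (c - x') ^ 2 := by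
      rw [hx, ← h1]
      push_cast
      have : ((m : ℝ) + s * c - (m + s * x')) ^ 2 = (s * s) * (c - x') ^ 2 := by ring
      rw [this, hs2']
      ring
    have e2 : ((b : ℝ) - y) ^ 2 = (d - y') ^ 2 := by
      rw [hy, ← h2]
      push_cast
      have : ((k : ℝ) + t * d - (k + t * y')) ^ 2 = (t * t) * (d - y') ^ 2 := by ring
      rw [this, ht2']
      ring
    rw [e1, e2]
    exact h

/-! ### Circles with exactly `3853` enclosed points and radius close to `√4930 / 2` -/

theorem near (t : ℝ) (ht : 0 < t) (ht' : t ≤ 1 / 40000) :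
    (D (1 / 2 + 69 * t) (1 / 2 + 13 * t) (4930 / 4 - 4900 * t + 4930 * t ^ 2)).ncard = 3853 := by
  have key : D (1 / 2 + 69 * t) (1 / 2 + 13 * t) (4930 / 4 - 4900 * t + 4930 * t ^ 2) =
      insert ((35, 7) : ℤ × ℤ) (D (1 / 2) (1 / 2) (4930 / 4)) := by
    ext ⟨a, b⟩
    simp only [Set.mem_insert_iff, D, Set.mem_ofPred_eq, Prod.mk.injEq]
    -- integer quantities
    obtain ⟨E, hE⟩ : ∃ E : ℤ, E = (2 * a - 1) ^ 2 + (2 * b - 1) ^ 2 := ⟨_, rfl⟩
    obtain ⟨L, hL⟩ : ∃ L : ℤ, L = 69 * (2 * a - 1) + 13 * (2 * b - 1) := ⟨_, rfl⟩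
    have hER : (E : ℝ) = (2 * a - 1) ^ 2 + (2 * b - 1) ^ 2 := by rw [hE]; push_cast; ring
    have hLR : (L : ℝ) = 69 * (2 * a - 1) + 13 * (2 * b - 1) := by rw [hL]; push_cast; ring
    have i1 : ((a : ℝ) - (1 / 2 + 69 * t)) ^ 2 + ((b : ℝ) - (1 / 2 + 13 * t)) ^ 2 <
        4930 / 4 - 4900 * t + 4930 * t ^ 2 ↔ (E : ℝ) - 4930 < 4 * t * (L - 4900) := by
      rw [hER, hLR]
      constructor <;> intro h <;> nlinarith
    have i2 : ((a : ℝ) - 1 / 2) ^ 2 + ((b : ℝ) - 1 / 2) ^ 2 < 4930 / 4 ↔ E < 4930 := by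
      rw [show ((a : ℝ) - 1 / 2) ^ 2 + ((b : ℝ) - 1 / 2) ^ 2 = (E : ℝ) / 4 by rw [hER]; ring]
      rw [div_lt_div_iff_of_pos_right (by norm_num)]
      exact_mod_cast Iff.rfl
    rw [i1, i2]
    have hCS : L ^ 2 ≤ 4930 * E := by
      rw [hL, hE]
      nlinarith [sq_nonneg (69 * (2 * b - 1) - 13 * (2 * a - 1))]
    have hAM : 2 * L ≤ 4930 + E := by
      rw [hL, hE]
      nlinarith [sq_nonneg (69 - (2 * a - 1)), sq_nonneg (13 - (2 * b - 1))]
    have hAMR : 2 * (L : ℝ) ≤ 4930 + E := by exact_mod_cast hAM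
    constructor
    · intro h
      by_contra hcon
      push Not at hcon
      obtain ⟨h1, h2⟩ := hcon
      rcases eq_or_lt_of_le h2 with h3 | h3
      · -- E = 4930
        have h4 : (0 : ℝ) < 4 * t * (L - 4900) := by
          have : (E : ℝ) = 4930 := by exact_mod_cast h3.symm
          rw [this] at h
          linarith
        have h5 : (4900 : ℝ) < L := by
          by_contra hc
          push Not at hc
          nlinarith
        have h6 : (4900 : ℤ) < L := by exact_mod_cast h5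
        have h7 : (69 - (2 * a - 1)) ^ 2 + (13 - (2 * b - 1)) ^ 2 < 60 := by
          have : (69 - (2 * a - 1)) ^ 2 + (13 - (2 * b - 1)) ^ 2 = 4930 + E - 2 * L := by
            rw [hE, hL]; ring
          rw [this]
          omega
        have h8 : 32 ≤ a := by nlinarith [sq_nonneg (13 - (2 * b - 1))]
        have h9 : a ≤ 38 := by nlinarith [sq_nonneg (13 - (2 * b - 1))]
        have h10 : 4 ≤ b := by nlinarith [sq_nonneg (69 - (2 * a - 1))]
        have h11 : b ≤ 10 := by nlinarith [sq_nonneg (69 - (2 * a - 1))]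
        clear hER hLR i1 i2 hCS hAM hAMR h h4 h5 h7 hL h6
        rw [← h3] at hE
        interval_cases a <;> interval_cases b <;> revert hE h1 <;> decide
      · -- E ≥ 4931
        have h4 : (4931 : ℝ) ≤ E := by exact_mod_cast h3
        nlinarith
    · rintro (⟨rfl, rfl⟩ | h)
      · have : E = 4930 := by rw [hE]; norm_num
        have h2 : L = 4930 := by rw [hL]; norm_num
        rw [this, h2]
        push_cast
        nlinarith
      · have h1 : (E : ℝ) ≤ 4929 := by exact_mod_cast (by omega : E ≤ 4929)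
        have h2 : -4930 ≤ L := by nlinarith
        have h3 : (-4930 : ℝ) ≤ L := by exact_mod_cast h2
        nlinarith
  rw [key, Set.ncard_insert_of_notMem _ (D_finite _ _ _), ncard_center]
  simp only [D, Set.mem_ofPred_eq]
  push_cast
  norm_num

/-! ### The main results -/

theorem radii_lt {r : ℝ} (hr : r ∈ enclosingRadii 3853) : r < Real.sqrt 4930 / 2 := by
  obtain ⟨h0, c, hc⟩ := hr
  rw [enclosed_eq c r h0] at hc
  by_contra hcon
  push Not at hcon
  have hs : (4930 : ℝ) / 4 ≤ r ^ 2 := by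
    have h1 : (Real.sqrt 4930 / 2) ^ 2 ≤ r ^ 2 := by
      apply pow_le_pow_left₀ (by positivity) hcon
    rw [div_pow, Real.sq_sqrt (by norm_num)] at h1
    linarith
  obtain ⟨x, y, hx0, hx1, hy0, hy1, hT⟩ := reduce (c 0) (c 1)
  rw [hT] at hc
  by_cases hne : x = 1 / 2 ∧ y = 1 / 2
  · rw [hne.1, hne.2] at hc
    rcases eq_or_lt_of_le hs with h | h
    · rw [← h, ncard_center] at hc
      omega
    · have := center_big h
      omega
  · have h1 := lower hx0 hx1 hy0 hy1 hne
    have h2 := D_mono x y hs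
    omega

theorem near_mem (t : ℝ) (ht : 0 < t) (ht' : t ≤ 1 / 40000) :
    Real.sqrt (4930 / 4 - 4900 * t + 4930 * t ^ 2) ∈ enclosingRadii 3853 := by
  have hpos : 0 < 4930 / 4 - 4900 * t + 4930 * t ^ 2 := by nlinarith [sq_nonneg t]
  have hs := Real.sqrt_pos.2 hpos
  refine ⟨hs, !₂[1 / 2 + 69 * t, 1 / 2 + 13 * t], ?_⟩
  rw [enclosed_eq _ _ hs, Real.sq_sqrt hpos.le]
  simpa using near t ht ht'

theorem isLUB_radii : IsLUB (enclosingRadii 3853) (Real.sqrt 4930 / 2) := by
  constructor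
  · intro r hr
    exact (radii_lt hr).le
  · intro b hb
    by_contra hcon
    push Not at hcon
    have h0 := hb (near_mem (1 / 40000) (by norm_num) le_rfl)
    have hb0 : 0 ≤ b := (Real.sqrt_nonneg _).trans h0
    have hb2 : b ^ 2 < 4930 / 4 := by
      have h1 : b ^ 2 < (Real.sqrt 4930 / 2) ^ 2 := pow_lt_pow_left₀ hcon hb0 (by norm_num)
      rw [div_pow, Real.sq_sqrt (by norm_num)] at h1
      linarith
    have ht0 : 0 < min (1 / 40000 : ℝ) ((4930 / 4 - b ^ 2) / 9800) := by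
      apply lt_min (by norm_num)
      apply div_pos _ (by norm_num)
      linarith
    have h2 := hb (near_mem _ ht0 (min_le_left _ _))
    have h3 := min_le_right (1 / 40000 : ℝ) ((4930 / 4 - b ^ 2) / 9800)
    rw [Real.sqrt_le_left hb0] at h2
    rw [le_div_iff₀ (by norm_num)] at h3
    nlinarith [sq_nonneg (min (1 / 40000 : ℝ) ((4930 / 4 - b ^ 2) / 9800))]

/-- **Answer to the question: yes.** There is an integer `k ≥ 1`, different from `1` and `10`
(namely `k = 35`, with `g(35) = 3853`), such that `g(k)` is non-MC. -/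
theorem result : ∃ k : ℕ, 1 ≤ k ∧ k ≠ 1 ∧ k ≠ 10 ∧ IsNonMC (g k) := by
  refine ⟨35, by norm_num, by norm_num, by norm_num, ?_⟩
  rw [g_35]
  exact ⟨Real.sqrt 4930 / 2, isLUB_radii, fun h => lt_irrefl _ (radii_lt h)⟩

end Pool.Agent.Results.MP_b0ed8d_nt.NonMC35
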